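import Mathlib
import Pool.Agent.Helper58.PS.Defs

/-!
# Project PS2, leaf PS-5: the bridge, from the cluster structure and the two case lemmas
-/

namespace Pool.Agent.Helper58.PS

open Finset Pool.Agent.Helper6.Lehmer Pool.Agent.Helper6.LehmerCount Pool.Agent.Helper58.LT
open Pool.Agent.Helper6.PW

/-- the cluster is the set `clu` -/
theorem clus_eq_clu {n l b w i K₀ P K : ℕ} {G : Finset ℕ} (hC : Clus n l b w i K₀ P G)
    (hK : K₀ ≤ K) (hw : 1 ≤ w) (hb : ((K : ℝ) + K₀ + 1) * w ≤ b / 3) :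
    G = clu n b (K * w) := by
  have hlog2 : (0.69 : ℝ) < Real.log 2 := by linarith [Real.log_two_gt_d9]
  have hlog2' : Real.log 2 < (0.7 : ℝ) := by linarith [Real.log_two_lt_d9]
  have hw' : (1 : ℝ) ≤ w := by exact_mod_cast hw
  have hKK : (K₀ : ℝ) ≤ K := by exact_mod_cast hK
  have hK0 : (0 : ℝ) ≤ K₀ := Nat.cast_nonneg _
  have hP0 : 0 < P := lt_of_le_of_lt (Nat.zero_le _) hC.P1
  have hP0' : (0 : ℝ) < P := by exact_mod_cast hP0
  have hPlo : (b : ℝ) * Real.log 2 ≤ Real.log P := by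
    rw [← Real.log_pow]
    apply Real.log_le_log (by positivity)
    exact_mod_cast hC.P1.le
  have hPhi : Real.log P ≤ ((b : ℝ) + 1) * Real.log 2 := by
    have : Real.log P ≤ Real.log ((2 : ℝ) ^ (b + 1)) := by
      apply Real.log_le_log hP0'
      exact_mod_cast hC.P2
    rw [Real.log_pow] at this
    push_cast at this
    exact this
  have hbpos : (0 : ℝ) < b := by nlinarith
  have key : ∀ q ∈ n.primeFactors, ((2 : ℝ) ^ b * Real.exp (-((K * w : ℕ) : ℝ)) ≤ q ↔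
      (b : ℝ) * Real.log 2 - K * w ≤ Real.log q) := by
    intro q hq
    have hq0 : (0 : ℝ) < q := by exact_mod_cast (Nat.prime_of_mem_primeFactors hq).pos
    rw [← Real.log_le_log_iff (by positivity) hq0, Real.log_mul (by positivity) (by positivity),
      Real.log_pow, Real.log_exp]
    push_cast
    constructor
    · intro h; linarith
    · intro h; linarith
  ext q
  rw [clu, mem_filter]
  constructor
  · intro hq
    have hqn := hC.sub hq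
    refine ⟨hqn, (key q hqn).2 ?_⟩
    have := hC.lo q hq
    nlinarith
  · rintro ⟨hqn, hq⟩
    by_contra hcon
    have h1 := hC.small q hqn hcon
    have h2 := (key q hqn).1 hq
    nlinarith

/-- PS-5: the bridge from its three parts -/
theorem bridge_of
    (hclusterS : ∀ (i : ℕ) (_ : 2 ≤ i), ∃ K₀ : ℕ, 1 ≤ K₀ ∧ ∃ ε₂ : ℝ, 0 < ε₂ ∧ ε₂ < 1 ∧
      ∃ τ₀ : ℝ, 0 < τ₀ ∧ ∀ (l b w k n P : ℕ), 1 ≤ w → (w : ℝ) ≤ τ₀ * l → Idx n k → n ≤ 2 ^ l →
        2 ^ (l - 1) < n → n.primeFactors.card ≤ w → ¬ NSfail n l w → IsP n P → 2 ^ b < P →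
        P ≤ 2 ^ (b + 1) → |(l : ℝ) - (2 * i + 1) * b| ≤ ε₂ * b →
        i + 2 ≤ #(n.primeFactors.filter (fun q : ℕ => (2 : ℝ) ^ ((1 - ε₂) * b) ≤ (q : ℝ))) →
        ∃ G, Clus n l b w i K₀ P G)
    (htoA : ∀ (i K₀ : ℕ) (_ : 2 ≤ i), ∃ K₁ : ℕ, ∀ K : ℕ, K₁ ≤ K → ∃ τ₀ : ℝ, 0 < τ₀ ∧
      ∀ (l b w k n P : ℕ) (G : Finset ℕ), 1 ≤ w → (w : ℝ) ≤ τ₀ * l → Idx n k → n ≤ 2 ^ l →
        2 ^ (l - 1) < n → n.primeFactors.card ≤ w → IsP n P → Clus n l b w i K₀ P G →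
        #G = 2 * i → ∃ α, α ≤ l ∧ |(α : ℝ) - b| ≤ K * w ∧ DataA n l (K * w) k i α b)
    (htoC : ∀ (i K₀ : ℕ) (_ : 2 ≤ i), ∃ K₁ : ℕ, ∀ K : ℕ, K₁ ≤ K → ∃ τ₀ : ℝ, 0 < τ₀ ∧
      ∀ (l b w k n P : ℕ) (G : Finset ℕ), 1 ≤ w → (w : ℝ) ≤ τ₀ * l → Idx n k → n ≤ 2 ^ l →
        2 ^ (l - 1) < n → n.primeFactors.card ≤ w → ¬ NSfail n l w → IsP n P →
        Clus n l b w i K₀ P G → #G < 2 * i →
        ∃ μ ν θ' θ, μ ≤ l ∧ ν ≤ l ∧ θ' ≤ l ∧ θ ≤ l ∧ ConC l (K * w) μ ν θ' θ b ∧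
          DataC n l (K * w) k μ ν θ' θ b ∧ ∀ q ∈ n.primeFactors, q ∈ G ∨ q < 2 ^ (θ + 1))
    (i : ℕ) (hi : 2 ≤ i) : ∃ K : ℕ, 1 ≤ K ∧ ∃ ε₂ : ℝ, 0 < ε₂ ∧ ε₂ < 1 ∧
    ∃ τ₀ : ℝ, 0 < τ₀ ∧ ∀ (l b w k n P : ℕ), 1 ≤ w → (w : ℝ) ≤ τ₀ * l → Idx n k → n ≤ 2 ^ l →
      2 ^ (l - 1) < n → n.primeFactors.card ≤ w → ¬ NSfail n l w → IsP n P → 2 ^ b < P →
      P ≤ 2 ^ (b + 1) → |(l : ℝ) - (2 * i + 1) * b| ≤ ε₂ * b →
      i + 2 ≤ #(n.primeFactors.filter (fun q : ℕ => (2 : ℝ) ^ ((1 - ε₂) * b) ≤ (q : ℝ))) →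
      i + 2 ≤ #(clu n b (K * w)) ∧ #(clu n b (K * w)) ≤ 2 * i ∧
      |(l : ℝ) - (2 * i + 1) * b| ≤ K * w ∧
      (#(clu n b (K * w)) = 2 * i → ∃ α, α ≤ l ∧ |(α : ℝ) - b| ≤ K * w ∧
        DataA n l (K * w) k i α b) ∧
      (#(clu n b (K * w)) < 2 * i → ∃ μ ν θ' θ, μ ≤ l ∧ ν ≤ l ∧ θ' ≤ l ∧ θ ≤ l ∧
        ConC l (K * w) μ ν θ' θ b ∧ DataC n l (K * w) k μ ν θ' θ b ∧
        ∀ q ∈ n.primeFactors, q ∈ clu n b (K * w) ∨ q < 2 ^ (θ + 1)) := by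
  obtain ⟨K₀, hK₀, ε₂, hε0, hε1, τS, hτS, HS⟩ := hclusterS i hi
  obtain ⟨KA, HA⟩ := htoA i K₀ hi
  obtain ⟨KC, HC⟩ := htoC i K₀ hi
  set K : ℕ := KA + KC + 2 * K₀ + 2 * i + 1 with hK
  obtain ⟨τA, hτA, HA⟩ := HA K (by omega)
  obtain ⟨τC, hτC, HC⟩ := HC K (by omega)
  set D : ℝ := 3 * (2 * i + 2) * ((K : ℝ) + K₀ + 1) with hD
  have hD0 : 0 < D := by positivity
  refine ⟨K, by omega, ε₂, hε0, hε1, min (min τS τA) (min τC (1 / D)), by positivity, ?_⟩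
  intro l b w k n P hw hwl hI hn1 hn2 hom hNS hP hP1 hP2 hlb hcard
  have hl0 : (0 : ℝ) ≤ l := Nat.cast_nonneg _
  have hwS : (w : ℝ) ≤ τS * l := hwl.trans
    (mul_le_mul_of_nonneg_right ((min_le_left _ _).trans (min_le_left _ _)) hl0)
  have hwA : (w : ℝ) ≤ τA * l := hwl.trans
    (mul_le_mul_of_nonneg_right ((min_le_left _ _).trans (min_le_right _ _)) hl0)
  have hwC : (w : ℝ) ≤ τC * l := hwl.trans
    (mul_le_mul_of_nonneg_right ((min_le_right _ _).trans (min_le_left _ _)) hl0)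
  have hwD : (w : ℝ) ≤ 1 / D * l := hwl.trans
    (mul_le_mul_of_nonneg_right ((min_le_right _ _).trans (min_le_right _ _)) hl0)
  obtain ⟨G, hG⟩ := HS l b w k n P hw hwS hI hn1 hn2 hom hNS hP hP1 hP2 hlb hcard
  have hw' : (1 : ℝ) ≤ w := by exact_mod_cast hw
  have hb0 : (0 : ℝ) ≤ b := Nat.cast_nonneg _
  have hlb' : (l : ℝ) ≤ (2 * i + 2) * b := by
    have := (abs_le.1 hlb).2
    nlinarith
  have hKw : ((K : ℝ) + K₀ + 1) * w ≤ b / 3 := by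
    have h1 : D * w ≤ l := by
      rw [one_div, inv_mul_eq_div, le_div_iff₀ hD0] at hwD
      linarith
    have h2 : (3 * (2 * (i : ℝ) + 2)) * (((K : ℝ) + K₀ + 1) * w) ≤
        (3 * (2 * (i : ℝ) + 2)) * (b / 3) := by
      calc (3 * (2 * (i : ℝ) + 2)) * (((K : ℝ) + K₀ + 1) * w) = D * w := by rw [hD]; ring
        _ ≤ l := h1
        _ ≤ (2 * i + 2) * b := hlb'
        _ = (3 * (2 * (i : ℝ) + 2)) * (b / 3) := by ring
    exact le_of_mul_le_mul_left h2 (by positivity)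
  have hGc : G = clu n b (K * w) := clus_eq_clu hG (by omega) hw hKw
  rw [← hGc]
  refine ⟨hG.card1, hG.card2, ?_, ?_, ?_⟩
  · have hlog2 : (0.69 : ℝ) < Real.log 2 := by linarith [Real.log_two_gt_d9]
    have hP0' : (0 : ℝ) < P := by
      have : 0 < P := lt_of_le_of_lt (Nat.zero_le _) hP1
      exact_mod_cast this
    have hPlo : (b : ℝ) * Real.log 2 ≤ Real.log P := by
      rw [← Real.log_pow]
      apply Real.log_le_log (by positivity)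
      exact_mod_cast hP1.le
    have hPhi : Real.log P ≤ ((b : ℝ) + 1) * Real.log 2 := by
      have : Real.log P ≤ Real.log ((2 : ℝ) ^ (b + 1)) := by
        apply Real.log_le_log hP0'
        exact_mod_cast hP2
      rw [Real.log_pow] at this
      push_cast at this
      exact this
    have hs := abs_le.1 hG.size
    have hi0 : (0 : ℝ) ≤ 2 * i + 1 := by positivity
    have hK0 : (0 : ℝ) ≤ K₀ := Nat.cast_nonneg _
    have hKge : (2 * (K₀ : ℝ) + 2 * i + 1) ≤ K := by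
      have : 2 * K₀ + 2 * i + 1 ≤ K := by omega
      exact_mod_cast this
    have e1 : (2 * (i : ℝ) + 1) * (b * Real.log 2) ≤ (2 * i + 1) * Real.log P :=
      mul_le_mul_of_nonneg_left hPlo hi0
    have e2 : (2 * (i : ℝ) + 1) * Real.log P ≤ (2 * i + 1) * ((b + 1) * Real.log 2) :=
      mul_le_mul_of_nonneg_left hPhi hi0
    have e3 : (K₀ : ℝ) * w ≤ 2 * K₀ * w * Real.log 2 := by
      have : (0 : ℝ) ≤ K₀ * w := by positivity
      nlinarith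
    have e4 : (2 * (i : ℝ) + 1) * Real.log 2 ≤ (2 * i + 1) * w * Real.log 2 := by
      have : (0 : ℝ) ≤ (2 * i + 1) * Real.log 2 := by positivity
      nlinarith
    have e5 : (2 * (K₀ : ℝ) + 2 * i + 1) * w * Real.log 2 ≤ K * w * Real.log 2 := by
      apply mul_le_mul_of_nonneg_right _ (by linarith)
      apply mul_le_mul_of_nonneg_right hKge (by linarith)
    have hl2 : 0 < Real.log 2 := by linarith
    rw [abs_le]
    constructor
    · have : (-((K : ℝ) * w)) * Real.log 2 ≤ ((l : ℝ) - (2 * i + 1) * b) * Real.log 2 := by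
        nlinarith
      exact le_of_mul_le_mul_right this hl2
    · have : ((l : ℝ) - (2 * i + 1) * b) * Real.log 2 ≤ ((K : ℝ) * w) * Real.log 2 := by
        nlinarith
      exact le_of_mul_le_mul_right this hl2
  · intro hcG
    exact HA l b w k n P G hw hwA hI hn1 hn2 hom hP hG hcG
  · intro hcG
    exact HC l b w k n P G hw hwC hI hn1 hn2 hom hNS hP hG hcG

end Pool.Agent.Helper58.PS
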